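import Pool.Agent.W2helper9.SD.Stm

/-!
# Project SD, piece B32
-/

set_option autoImplicit false

open MvPolynomial

namespace Pool.Agent.W4helper65.SD

open Pool.Agent.Helper819.Dyn Pool.Agent.W2helper9.SD

noncomputable section

theorem eval_bind {σ τ : Type} (L : τ → MvPolynomial σ Kb) (p : MvPolynomial τ Kb) (a : σ → Kb) :
    eval a (bind₁ L p) = eval (fun q => eval a (L q)) p := by
  induction p using MvPolynomial.induction_on with
  | C c => simp
  | add p q hp hq => rw [map_add, map_add, map_add, hp, hq]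
  | mul_X p i hp => rw [map_mul, map_mul, map_mul, hp, bind₁_X_right, eval_X]

/-- polynomial families over dense sets -/
theorem dense_nat {σ : Type} {E : Set (σ → Z2)} (hE : ZDense E) {N : ℕ}
    (Γ : (σ → Kb) → Tuple Kb N)
    (L : Fin (N + 1) × (Fin (N + 1) →₀ ℕ) → MvPolynomial σ Kb)
    (hL : ∀ a q, co (Γ a) q = eval a (L q))
    (p : MvPolynomial (Fin (N + 1) × (Fin (N + 1) →₀ ℕ)) Kb)
    (h : ∀ a ∈ E, eval (co (Γ fun i => io (a i))) p = 0) (a : σ → Kb) :
    eval (co (Γ a)) p = 0 := by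
  have e : ∀ a, eval (co (Γ a)) p = eval a (bind₁ L p) := by
    intro a
    rw [eval_bind]
    congr 1
    congr 1
    funext q
    exact hL a q
  have h0 : bind₁ L p = 0 := hE _ fun a ha => by
    rw [← e]
    exact h a ha
  rw [e, h0, map_zero]

section

variable {R : Type} [CommRing R]

/-- the row of a general tuple -/
def row (Q α β : Fin 3 → R) (c : R) : MvPolynomial (Fin 4) R :=
  C (Q 0) * (X 2 * X 2) + C (Q 1) * (X 2 * X 3) + C (Q 2) * (X 3 * X 3) +
    X 1 * (C (α 0) * X 1 + C (α 1) * X 2 + C (α 2) * X 3) +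
    X 0 * (C (β 0) * X 0 + C (β 1) * X 2 + C (β 2) * X 3) + C c * (X 0 * X 1)

/-- a general tuple -/
def GF (Q α β : Fin 3 → Fin 3 → R) (c : Fin 3 → R) : Fin 4 → MvPolynomial (Fin 4) R :=
  ![X 0 * X 1, row (Q 0) (α 0) (β 0) (c 0), row (Q 1) (α 1) (β 1) (c 1),
    row (Q 2) (α 2) (β 2) (c 2)]

theorem row_hom (Q α β : Fin 3 → R) (c : R) : (row Q α β c).IsHomogeneous 2 := by
  have h : ∀ (a : R) (i j : Fin 4), (C a * (X i * X j) : MvPolynomial (Fin 4) R).IsHomogeneous 2 := by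
    intro a i j
    have := (isHomogeneous_C (Fin 4) a).mul ((isHomogeneous_X R i).mul (isHomogeneous_X R j))
    simpa using this
  have e : row Q α β c = C (Q 0) * (X 2 * X 2) + C (Q 1) * (X 2 * X 3) + C (Q 2) * (X 3 * X 3) +
    C (α 0) * (X 1 * X 1) + C (α 1) * (X 1 * X 2) + C (α 2) * (X 1 * X 3) +
    C (β 0) * (X 0 * X 0) + C (β 1) * (X 0 * X 2) + C (β 2) * (X 0 * X 3) +
      C c * (X 0 * X 1) := by
    unfold row
    ring
  rw [e]
  exact (((((((((h _ _ _).add (h _ _ _)).add (h _ _ _)).add (h _ _ _)).add (h _ _ _)).add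
    (h _ _ _)).add (h _ _ _)).add (h _ _ _)).add (h _ _ _)).add (h _ _ _)

theorem GF_hom (Q α β : Fin 3 → Fin 3 → R) (c : Fin 3 → R) (i : Fin 4) :
    (GF Q α β c i).IsHomogeneous 2 := by
  fin_cases i
  · exact (isHomogeneous_X R 0).mul (isHomogeneous_X R 1)
  · exact row_hom _ _ _ _
  · exact row_hom _ _ _ _
  · exact row_hom _ _ _ _

theorem map_row {S : Type} [CommRing S] (f : R →+* S) (Q α β : Fin 3 → R) (c : R) :
    map f (row Q α β c) = row (fun j => f (Q j)) (fun j => f (α j)) (fun j => f (β j)) (f c) := by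
  simp [row]

theorem map_GF {S : Type} [CommRing S] (f : R →+* S) (Q α β : Fin 3 → Fin 3 → R) (c : Fin 3 → R)
    (i : Fin 4) : map f (GF Q α β c i) =
      GF (fun i j => f (Q i j)) (fun i j => f (α i j)) (fun i j => f (β i j)) (fun i => f (c i))
        i := by
  fin_cases i
  · simp [GF]
  · exact map_row f _ _ _ _
  · exact map_row f _ _ _ _
  · exact map_row f _ _ _ _

/-- the identity matrix -/
def one' (R : Type) [CommRing R] : Fin 3 → Fin 3 → R := ![![1, 0, 0], ![0, 1, 0], ![0, 0, 1]]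

/-- `Fin 9` and matrices -/
def ma (a : Fin 9 → R) : Fin 3 → Fin 3 → R := ![![a 0, a 1, a 2], ![a 3, a 4, a 5], ![a 6, a 7, a 8]]

theorem map_ma {S : Type} [CommRing S] (f : R →+* S) (a : Fin 9 → R) :
    (fun i j => f (ma a i j)) = ma fun k => f (a k) := by
  funext i j
  fin_cases i <;> fin_cases j <;> rfl

theorem map_one' {S : Type} [CommRing S] (f : R →+* S) :
    (fun i j => f (one' R i j)) = one' S := by
  funext i j
  fin_cases i <;> fin_cases j <;> simp [one']

/-- the normal form -/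
def TT (a b : Fin 9 → R) : Fin 4 → MvPolynomial (Fin 4) R :=
  GF (one' R) (ma a) (ma b) fun _ => 0

theorem map_TT {S : Type} [CommRing S] (f : R →+* S) (a b : Fin 9 → R) (i : Fin 4) :
    map f (TT a b i) = TT (fun k => f (a k)) (fun k => f (b k)) i := by
  rw [TT, map_GF, map_ma, map_ma, map_one', TT]
  simp only [map_zero]

end

theorem intGood_TT {a b : Fin 9 → Z2} (ha : Cop9 a) (hb : Cop9 b) : IntGood 3 2 (TT a b) := by
  refine ⟨fun i => GF_hom _ _ _ _ i, fun κ _ _ φ x hx => ?_⟩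
  have h0 := hx 0
  have h1 := hx 1
  have h2 := hx 2
  have h3 := hx 3
  simp only [TT, GF, row, one', ma, Matrix.cons_val, eval₂_mul, eval₂_add, eval₂_X, eval₂_C,
    map_zero, map_one, zero_mul, one_mul, add_zero, zero_add, Fin.isValue,
    Matrix.cons_val_zero, Matrix.cons_val_one] at h0 h1 h2 h3
  rw [mul_eq_zero] at h0
  rcases h0 with h0 | h0
  · rw [h0] at h1 h2 h3
    obtain ⟨e1, e2, e3⟩ := ha κ φ (x 1) (x 2) (x 3) (by linear_combination h1)
      (by linear_combination h2) (by linear_combination h3)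
    funext i
    fin_cases i
    exacts [h0, e1, e2, e3]
  · rw [h0] at h1 h2 h3
    obtain ⟨e1, e2, e3⟩ := hb κ φ (x 0) (x 2) (x 3) (by linear_combination h1)
      (by linear_combination h2) (by linear_combination h3)
    funext i
    fin_cases i
    exacts [e1, h0, e2, e3]

theorem TT_mem (hD : ZDense {a | Cop9 a}) (a b : Fin 9 → Kb) :
    (TT a b : Tuple Kb 3) ∈ Zcl 3 2 := by
  refine ⟨fun i => GF_hom _ _ _ _ i, fun p hp => ?_⟩
  have s1 : ∀ b : Fin 9 → Z2, Cop9 b → ∀ a : Fin 9 → Kb,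
      eval (co (TT a fun k => io (b k) : Tuple Kb 3)) p = 0 := by
    intro b hb a
    refine dense_nat hD (fun a => (TT a fun k => io (b k) : Tuple Kb 3))
      (fun q => coeff q.2 (TT (R := MvPolynomial (Fin 9) Kb) (fun k => X k)
        (fun k => C (io (b k))) q.1)) ?_ p ?_ a
    · intro a q
      rw [co, ← coeff_map, map_TT]
      simp
    · intro a ha
      have h := hp (TT a b) (intGood_TT ha hb)
      have e : (fun i => map io (TT a b i)) = (TT (fun k => io (a k)) fun k => io (b k)) :=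
        funext fun i => map_TT io a b i
      rw [e] at h
      exact h
  refine dense_nat hD (fun b => (TT a b : Tuple Kb 3))
      (fun q => coeff q.2 (TT (R := MvPolynomial (Fin 9) Kb) (fun k => C (a k))
        (fun k => X k) q.1)) ?_ p ?_ b
  · intro b q
    rw [co, ← coeff_map, map_TT]
    simp
  · intro b hb
    exact s1 b hb a

theorem lin_one (F : MvPolynomial (Fin 4) Kb) :
    lin (N := 3) (1 : Matrix (Fin 4) (Fin 4) Kb) F = F := by
  have e : (fun l : Fin 4 => ∑ m, C ((1 : Matrix (Fin 4) (Fin 4) Kb) l m) * X m) =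
      (fun l => (X l : MvPolynomial (Fin 4) Kb)) := by
    funext l
    rw [Finset.sum_eq_single l]
    · rw [Matrix.one_apply_eq, map_one, one_mul]
    · intro m _ hm
      rw [Matrix.one_apply_ne (Ne.symm hm), map_zero, zero_mul]
    · intro h
      exact absurd (Finset.mem_univ _) h
  unfold lin
  rw [e]
  exact congrFun (congrArg DFunLike.coe (bind₁_X_left (σ := Fin 4) (R := Kb))) F

/-- a matrix as a vector -/
def am {R : Type} (M : Fin 3 → Fin 3 → R) : Fin 9 → R :=
  ![M 0 0, M 0 1, M 0 2, M 1 0, M 1 1, M 1 2, M 2 0, M 2 1, M 2 2]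

theorem ma_am {R : Type} [CommRing R] (M : Fin 3 → Fin 3 → R) : ma (am M) = M := by
  funext i j
  fin_cases i <;> fin_cases j <;> rfl

/-- the matrix acting on the tuple -/
def AA (Q : Matrix (Fin 3) (Fin 3) Kb) (c : Fin 3 → Kb) : Matrix (Fin (3 + 1)) (Fin (3 + 1)) Kb :=
  Matrix.of ![![1, 0, 0, 0], ![c 0, Q 0 0, Q 0 1, Q 0 2], ![c 1, Q 1 0, Q 1 1, Q 1 2],
    ![c 2, Q 2 0, Q 2 1, Q 2 2]]

theorem det_AA (Q : Matrix (Fin 3) (Fin 3) Kb) (c : Fin 3 → Kb) : (AA Q c).det = Q.det := by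
  rw [Matrix.det_fin_three Q, AA, Matrix.det_succ_row_zero, Fin.sum_univ_four,
    Matrix.det_fin_three]
  simp [Matrix.submatrix_apply]

theorem row_comb (q : Fin 3 → Kb) (c : Kb) (α β : Fin 3 → Fin 3 → Kb) :
    C c * (X 0 * X 1) + C (q 0) * row (one' Kb 0) (α 0) (β 0) 0 +
      C (q 1) * row (one' Kb 1) (α 1) (β 1) 0 + C (q 2) * row (one' Kb 2) (α 2) (β 2) 0 =
    row q (fun j => q 0 * α 0 j + q 1 * α 1 j + q 2 * α 2 j)
      (fun j => q 0 * β 0 j + q 1 * β 1 j + q 2 * β 2 j) c := by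
  simp only [row, one', Matrix.cons_val, Matrix.cons_val_zero, Matrix.cons_val_one, map_zero,
    map_one, map_add, map_mul, Fin.isValue]
  ring

theorem GF_mem (hC : P_CURVE) (hI : P_INV) (hD : ZDense {a | Cop9 a})
    (Q α β : Matrix (Fin 3) (Fin 3) Kb) (c : Fin 3 → Kb) (hQ : Q.det ≠ 0) :
    (GF Q α β c : Tuple Kb 3) ∈ Zcl 3 2 := by
  have h := hI hC 3 2 (AA Q c) 1 (by rw [det_AA]; exact hQ) (by rw [Matrix.det_one]; exact one_ne_zero)
    _ (TT_mem hD (am (Q⁻¹ * α)) (am (Q⁻¹ * β)))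
  have hu : IsUnit Q.det := isUnit_iff_ne_zero.2 hQ
  have e1 : Q * (Q⁻¹ * α) = α := Matrix.mul_nonsing_inv_cancel_left Q α hu
  have e2 : Q * (Q⁻¹ * β) = β := Matrix.mul_nonsing_inv_cancel_left Q β hu
  have e1' : ∀ i, (fun j => Q i 0 * (Q⁻¹ * α) 0 j + Q i 1 * (Q⁻¹ * α) 1 j +
      Q i 2 * (Q⁻¹ * α) 2 j) = α i := by
    intro i
    funext j
    have := congrFun (congrFun e1 i) j
    rw [Matrix.mul_apply, Fin.sum_univ_three] at this
    exact this
  have e2' : ∀ i, (fun j => Q i 0 * (Q⁻¹ * β) 0 j + Q i 1 * (Q⁻¹ * β) 1 j +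
      Q i 2 * (Q⁻¹ * β) 2 j) = β i := by
    intro i
    funext j
    have := congrFun (congrFun e2 i) j
    rw [Matrix.mul_apply, Fin.sum_univ_three] at this
    exact this
  have k : ∀ i, C (c i) * (X 0 * X 1) + C (Q i 0) * row (one' Kb 0) ((Q⁻¹ * α) 0) ((Q⁻¹ * β) 0) 0 +
      C (Q i 1) * row (one' Kb 1) ((Q⁻¹ * α) 1) ((Q⁻¹ * β) 1) 0 +
      C (Q i 2) * row (one' Kb 2) ((Q⁻¹ * α) 2) ((Q⁻¹ * β) 2) 0 =
      row (Q i) (α i) (β i) (c i) := by
    intro i
    rw [row_comb (Q i) (c i) (Q⁻¹ * α) (Q⁻¹ * β), e1', e2']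
  convert h using 1
  funext i
  rw [Fin.sum_univ_four]
  rw [lin_one, lin_one, lin_one, lin_one]
  simp only [TT, ma_am]
  fin_cases i
  · simp [GF, AA]
  · simp only [GF, AA, Matrix.of_apply, Matrix.cons_val, Fin.isValue]
    exact (k 0).symm
  · simp only [GF, AA, Matrix.of_apply, Matrix.cons_val, Fin.isValue]
    exact (k 1).symm
  · simp only [GF, AA, Matrix.of_apply, Matrix.cons_val, Fin.isValue]
    exact (k 2).symm

theorem GF_mem' (hC : P_CURVE) (hI : P_INV) (hD : ZDense {a | Cop9 a})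
    (Q α β : Matrix (Fin 3) (Fin 3) Kb) (c : Fin 3 → Kb) :
    (GF Q α β c : Tuple Kb 3) ∈ Zcl 3 2 := by
  have hc := hC 3 2 (fun t => (GF (fun i j => Q i j + (1 : Matrix (Fin 3) (Fin 3) Kb) i j * t) α β c
    : Tuple Kb 3)) 1 (fun t i => GF_hom _ _ _ _ i) ?_ ?_ 0 (by simp)
  · have e : (fun i j => Q i j + (1 : Matrix (Fin 3) (Fin 3) Kb) i j * 0) = Q := by
      funext i j
      rw [mul_zero, add_zero]
    simp only [e] at hc
    exact hc
  · intro q
    refine ⟨coeff q.2 (GF (R := Polynomial Kb)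
      (fun i j => Polynomial.C (Q i j) +
        Polynomial.C ((1 : Matrix (Fin 3) (Fin 3) Kb) i j) * Polynomial.X)
      (fun i j => Polynomial.C (α i j)) (fun i j => Polynomial.C (β i j))
      (fun i => Polynomial.C (c i)) q.1), 0, fun t _ => ?_⟩
    rw [pow_zero, mul_one, ← Polynomial.coe_evalRingHom, ← coeff_map, map_GF, co]
    simp
  · have hfin : {t : Kb | ((-Q).charpoly).IsRoot t}.Finite :=
      Polynomial.finite_setOfPred_isRoot (Matrix.charpoly_monic _).ne_zero
    refine (hfin.infinite_compl).mono fun t ht => ?_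
    refine ⟨by simp, ?_⟩
    have ht' : ((-Q).charpoly).eval t ≠ 0 := ht
    rw [Matrix.eval_charpoly, sub_neg_eq_add] at ht'
    refine GF_mem hC hI hD (fun i j => Q i j + (1 : Matrix (Fin 3) (Fin 3) Kb) i j * t) α β c ?_
    convert ht' using 2
    funext i j
    rw [Matrix.add_apply, add_comm]
    congr 1
    rw [Matrix.scalar_apply, Matrix.diagonal_apply, Matrix.one_apply]
    split_ifs <;> simp

theorem row_add (Q α β Q' α' β' : Fin 3 → Kb) (c c' : Kb) :
    row Q α β c + row Q' α' β' c' = row (Q + Q') (α + α') (β + β') (c + c') := by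
  simp only [row, Pi.add_apply, map_add]
  ring

theorem row_zero : row (R := Kb) 0 0 0 0 = 0 := by
  simp [row]

theorem row_mon (a : Kb) (i j : Fin 4) : ∃ Q α β c, (C a * (X i * X j) : MvPolynomial (Fin 4) Kb) =
    row Q α β c := by
  let u : Fin 4 → Fin 4 → Kb := fun k l => if (i = k ∧ j = l) ∨ (i = l ∧ j = k) then a else 0
  refine ⟨![u 2 2, u 2 3, u 3 3], ![u 1 1, u 1 2, u 1 3], ![u 0 0, u 0 2, u 0 3], u 0 1, ?_⟩
  fin_cases i <;> fin_cases j <;> simp [row, u] <;>
    first | ring1 | exact Or.inl (mul_comm _ _)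

theorem dec (d : Fin 4 →₀ ℕ) (n : ℕ) (h : d.degree = n + 1) :
    ∃ i d', d = Finsupp.single i 1 + d' ∧ d'.degree = n := by
  have hd : d ≠ 0 := by
    rintro rfl
    simp at h
  obtain ⟨i, hi⟩ := Finsupp.ne_iff.1 hd
  rw [Finsupp.zero_apply] at hi
  have hle : Finsupp.single i 1 ≤ d := by
    rw [Finsupp.single_le_iff]
    omega
  have e : d = Finsupp.single i 1 + (d - Finsupp.single i 1) := (add_tsub_cancel_of_le hle).symm
  refine ⟨i, d - Finsupp.single i 1, e, ?_⟩
  rw [e, map_add, Finsupp.degree_single] at h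
  omega

theorem exists_row (F : MvPolynomial (Fin 4) Kb) (hF : F.IsHomogeneous 2) :
    ∃ Q α β c, F = row Q α β c := by
  have hs : ∀ s : Finset (Fin 4 →₀ ℕ), s ⊆ F.support →
      ∃ Q α β c, ∑ d ∈ s, monomial d (coeff d F) = row Q α β c := by
    intro s
    induction s using Finset.induction_on with
    | empty => exact fun _ => ⟨0, 0, 0, 0, by rw [Finset.sum_empty, row_zero]⟩
    | insert d s hd ih =>
      intro hsub
      obtain ⟨Q, α, β, c, h⟩ := ih fun x hx => hsub (Finset.mem_insert_of_mem hx)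
      have hdeg : d.degree = 2 := by
        have := hF (mem_support_iff.1 (hsub (Finset.mem_insert_self d s)))
        rw [Finsupp.degree_eq_weight_one]
        exact this
      obtain ⟨i, j, hij⟩ : ∃ i j, d = Finsupp.single i 1 + Finsupp.single j 1 := by
        obtain ⟨i, d', rfl, h1⟩ := dec d 1 hdeg
        obtain ⟨j, d'', rfl, h2⟩ := dec d' 0 h1
        rw [Finsupp.degree_eq_zero_iff] at h2
        exact ⟨i, j, by rw [h2, add_zero]⟩
      obtain ⟨Q', α', β', c', h'⟩ := row_mon (coeff d F) i j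
      refine ⟨Q' + Q, α' + α, β' + β, c' + c, ?_⟩
      rw [Finset.sum_insert hd, h, ← row_add, ← h']
      congr 1
      rw [X, X, monomial_mul, ← hij, C_mul_monomial]
      simp
  obtain ⟨Q, α, β, c, h⟩ := hs F.support subset_rfl
  exact ⟨Q, α, β, c, by rw [← h, support_sum_monomial_coeff]⟩

theorem p_b32 : P_B32 := by
  intro hC hI hD F1 F2 F3 h1 h2 h3
  obtain ⟨Q1, α1, β1, c1, rfl⟩ := exists_row F1 h1
  obtain ⟨Q2, α2, β2, c2, rfl⟩ := exists_row F2 h2
  obtain ⟨Q3, α3, β3, c3, rfl⟩ := exists_row F3 h3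
  exact GF_mem' hC hI hD ![Q1, Q2, Q3] ![α1, α2, α3] ![β1, β2, β3] ![c1, c2, c3]

end

end Pool.Agent.W4helper65.SD
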