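import Pool.Agent.W2helper9.SD.Stm

/-!
# Project SD, pieces D2 and D6
-/

set_option autoImplicit false

open MvPolynomial

namespace Pool.Agent.W4helper65.SD

open Pool.Agent.Helper819.Dyn Pool.Agent.W2helper9.SD

noncomputable section

theorem isUnit_two' : IsUnit (2 : Z2) := by
  have h := IsLocalization.Away.algebraMap_isUnit (S := Z2) (2 : ℤ)
  simpa using h

theorem io_two : io 2 = 2 := map_ofNat io 2

theorem io_ne {x : Z2} (hx : IsUnit x) : io x ≠ 0 := (hx.map io).ne_zero

/-- polynomials along a coordinate line -/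
theorem line {σ : Type} [DecidableEq σ] (p : MvPolynomial σ Kb) (a : σ → Kb) (i : σ)
    (h : {t | eval (Function.update a i t) p = 0}.Infinite) (t : Kb) :
    eval (Function.update a i t) p = 0 := by
  let q : Polynomial Kb := eval₂ Polynomial.C
    (fun j => if j = i then Polynomial.X else Polynomial.C (a j)) p
  have e : ∀ t, eval (Function.update a i t) p = q.eval t := by
    intro t
    show _ = Polynomial.eval t (eval₂ Polynomial.C _ p)
    rw [← Polynomial.coe_evalRingHom, hom_eval₂, eval]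
    have e1 : (Polynomial.evalRingHom t).comp Polynomial.C = RingHom.id Kb :=
      RingHom.ext fun x => by simp
    have e2 : (fun j => (Polynomial.evalRingHom t) (if j = i then Polynomial.X
        else Polynomial.C (a j))) = Function.update a i t := by
      funext j
      by_cases hj : j = i
      · subst hj
        simp
      · simp [hj]
    rw [coe_eval₂Hom, e1]
    congr 1
    exact e2.symm
  have hq : q = 0 := by
    refine Polynomial.eq_zero_of_infinite_isRoot q ?_
    convert h using 2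
    funext t
    rw [e]
    rfl
  rw [e, hq, Polynomial.eval_zero]

theorem odd_pow (n : ℤ) (hn : Odd n) (K : Set ℤ) (hK : ∀ (m : ℤ) (e : ℕ), 1 - 2 ^ e = n * m → m ∈ K) :
    K.Infinite := by
  have hc : IsCoprime (2 : ℤ) n := by
    obtain ⟨k, hk⟩ := hn
    exact ⟨-k, 1, by rw [hk]; ring⟩
  have h1 : ∀ k : ℕ, ∃ m : ℤ, 1 - 2 ^ (k * Nat.totient n.natAbs) = n * m := by
    intro k
    have h2 : (2 : ℤ) ^ Nat.totient n.natAbs ≡ 1 [ZMOD n] := by
      have hcn : Nat.Coprime 2 n.natAbs := by
        have := Int.isCoprime_iff_gcd_eq_one.1 hc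
        simpa [Int.gcd, Nat.Coprime] using this
      have h3 := Nat.ModEq.pow_totient hcn
      have h4 := (Int.natCast_modEq_iff).2 h3
      have h5 : ((n.natAbs : ℤ)) ∣ (1 : ℤ) - 2 ^ Nat.totient n.natAbs := by
        have := h4.dvd
        push_cast at this ⊢
        exact this
      exact Int.modEq_iff_dvd.2 (Int.natAbs_dvd.1 h5)
    have h3 := h2.pow k
    rw [← pow_mul, one_pow, mul_comm] at h3
    obtain ⟨m, hm⟩ := h3.dvd
    exact ⟨m, hm⟩
  choose f hf using h1
  have hinj : Function.Injective f := by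
    intro k l hkl
    have h2 := hf k
    rw [hkl, ← hf l] at h2
    have h3 : (2 : ℤ) ^ (k * Nat.totient n.natAbs) = 2 ^ (l * Nat.totient n.natAbs) := by linarith
    have h4 := pow_right_injective₀ (by norm_num : (0 : ℤ) < 2) (by norm_num) h3
    have h0 : 0 < Nat.totient n.natAbs := by
      rw [Nat.totient_pos]
      obtain ⟨j, hj⟩ := hn
      omega
    exact Nat.eq_of_mul_eq_mul_right h0 h4
  exact (Set.infinite_range_of_injective hinj).mono (by
    rintro _ ⟨k, rfl⟩
    exact hK _ _ (hf k))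

theorem inf_unit (A x B : Z2) (hA : IsUnit A) (hx : IsUnit x) (n : ℤ) (hn : Odd n) :
    {t : Kb | ∃ c : Z2, io c = t ∧ IsUnit (A * x ^ 2 - c * x * n + B * n ^ 2)}.Infinite := by
  obtain ⟨y, hy⟩ := hx.exists_right_inv
  have h := odd_pow n hn {m : ℤ | ∃ c : Z2, io c = io (A * x * m + B * n * y) ∧
    IsUnit (A * x ^ 2 - c * x * n + B * n ^ 2)} (by
      intro m e hm
      refine ⟨_, rfl, ?_⟩
      have e1 : A * x ^ 2 - (A * x * m + B * n * y) * x * n + B * n ^ 2 =
          A * x ^ 2 * (1 - n * m) + B * n ^ 2 * (1 - x * y) := by ring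
      have e2 : (1 : Z2) - n * m = 2 ^ e := by
        have := congrArg (Int.cast (R := Z2)) hm
        push_cast at this
        rw [← this]
        ring
      rw [e1, e2, hy, sub_self, mul_zero, add_zero]
      exact (hA.mul (hx.pow 2)).mul (isUnit_two'.pow e))
  have hi : Function.Injective (fun m : ℤ => io (A * x * m + B * n * y)) := by
    intro m m' hm
    simp only [map_add, map_mul, map_intCast] at hm
    have h2 := add_right_cancel hm
    have h3 := mul_left_cancel₀ (mul_ne_zero (io_ne hA) (io_ne hx)) h2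
    exact_mod_cast h3
  have h5 := h.image (f := fun m : ℤ => io (A * x * m + B * n * y)) hi.injOn
  refine h5.mono ?_
  rintro _ ⟨m, ⟨c, hc, hu⟩, rfl⟩
  exact ⟨c, hc, hu⟩

theorem infinite_two_pow : {t : Kb | ∃ k : ℕ, t = 2 ^ k}.Infinite := by
  have hi : Function.Injective (fun k : ℕ => (2 : Kb) ^ k) := by
    intro k l hkl
    have h : ((2 ^ k : ℕ) : Kb) = ((2 ^ l : ℕ) : Kb) := by
      push_cast
      exact hkl
    exact Nat.pow_right_injective (le_refl 2) (Nat.cast_injective h)
  exact (Set.infinite_range_of_injective hi).mono (by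
    rintro _ ⟨k, rfl⟩
    exact ⟨k, rfl⟩)

theorem infinite_odd : {t : Kb | ∃ k : ℤ, t = 2 * k + 1}.Infinite := by
  have hi : Function.Injective (fun k : ℤ => (2 : Kb) * k + 1) := by
    intro k l hkl
    have h := add_right_cancel hkl
    have h3 := mul_left_cancel₀ two_ne_zero h
    exact_mod_cast h3
  exact (Set.infinite_range_of_injective hi).mono (by
    rintro _ ⟨k, rfl⟩
    exact ⟨k, rfl⟩)

theorem cop2_of {a : Fin 4 → Z2} (h : IsUnit (a 1 * a 2 ^ 2 - a 0 * a 2 * a 3 + 1 * a 3 ^ 2)) :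
    Cop2 a := by
  intro κ _ _ φ s t h1 h2
  have hr := (h.map φ).ne_zero
  simp only [map_add, map_sub, map_mul, map_pow, map_one] at hr
  by_cases hs : s = 0
  · subst hs
    refine ⟨rfl, ?_⟩
    have : t ^ 2 = 0 := by linear_combination h1
    exact pow_eq_zero_iff (two_ne_zero) |>.1 this
  · exfalso
    have h3 : φ (a 2) * t + φ (a 3) * s = 0 := by
      have : s * (φ (a 2) * t + φ (a 3) * s) = 0 := by linear_combination h2
      exact (mul_eq_zero.1 this).resolve_left hs
    apply hr
    have h4 : s ^ 2 * (φ (a 1) * φ (a 2) ^ 2 - φ (a 0) * φ (a 2) * φ (a 3) + 1 * φ (a 3) ^ 2) = 0 := by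
      linear_combination φ (a 2) ^ 2 * h1 - (φ (a 2) * t + φ (a 0) * φ (a 2) * s - φ (a 3) * s) * h3
    exact (mul_eq_zero.1 h4).resolve_left (pow_ne_zero 2 hs)

theorem p_D2 : P_D2 := by
  intro p hp
  refine MvPolynomial.funext_set (R := Kb) (s := ![Set.univ, {t | ∃ k : ℕ, t = 2 ^ k},
    {t | ∃ k : ℕ, t = 2 ^ k}, {t | ∃ k : ℤ, t = 2 * k + 1}]) ?_ ?_
  · intro i
    fin_cases i
    · exact Set.infinite_univ
    · exact infinite_two_pow
    · exact infinite_two_pow
    · exact infinite_odd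
  · intro x hx
    rw [map_zero]
    obtain ⟨k, hk⟩ : ∃ k : ℕ, x 1 = 2 ^ k := hx 1 trivial
    obtain ⟨l, hl⟩ : ∃ k : ℕ, x 2 = 2 ^ k := hx 2 trivial
    obtain ⟨m, hm⟩ : ∃ k : ℤ, x 3 = 2 * k + 1 := hx 3 trivial
    have h := line p x 0 ?_ (x 0)
    · rwa [Function.update_eq_self] at h
    · refine (inf_unit (2 ^ k) (2 ^ l) 1 (isUnit_two'.pow k) (isUnit_two'.pow l) (2 * m + 1)
        ⟨m, rfl⟩).mono ?_
      rintro t ⟨c, rfl, hu⟩
      have h1 := hp ![c, 2 ^ k, 2 ^ l, ((2 * m + 1 : ℤ) : Z2)] (cop2_of (by simpa using hu))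
      have e : (fun i => io ((![c, 2 ^ k, 2 ^ l, ((2 * m + 1 : ℤ) : Z2)] : Fin 4 → Z2) i)) =
          Function.update x 0 (io c) := by
        funext i
        fin_cases i
        · simp
        · simp [hk, io_two]
        · simp [hl, io_two]
        · simp [hm, io_two]
      rw [e] at h1
      exact h1

theorem cop9_of {a : Fin 6 → Z2} (h : IsUnit (1 * a 0 ^ 2 - a 5 * a 0 * a 2 + a 3 * a 2 ^ 2))
    (h' : IsUnit (a 0 * a 4 ^ 2 - a 1 * a 4 * a 3 + 1 * a 3 ^ 2)) :
    Cop9 ![a 0, a 1, a 2, 0, 0, 0, a 3, a 4, a 5] := by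
  intro κ _ _ φ y z w h1 h2 h3
  have hr := (h.map φ).ne_zero
  have hr' := (h'.map φ).ne_zero
  simp only [map_add, map_sub, map_mul, map_pow, map_one] at hr hr'
  simp only [Matrix.cons_val, map_zero, zero_mul, add_zero, mul_zero, Fin.isValue] at h1 h2 h3
  by_cases hy : y = 0
  · subst hy
    have e1 : z ^ 2 = 0 := by linear_combination h1
    have e2 : w ^ 2 = 0 := by linear_combination h3
    exact ⟨rfl, pow_eq_zero_iff (two_ne_zero) |>.1 e1, pow_eq_zero_iff (two_ne_zero) |>.1 e2⟩
  · exfalso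
    rcases mul_eq_zero.1 h2 with hz | hw
    · subst hz
      have h4 : φ (a 0) * y + φ (a 2) * w = 0 := by
        have : y * (φ (a 0) * y + φ (a 2) * w) = 0 := by linear_combination h1
        exact (mul_eq_zero.1 this).resolve_left hy
      apply hr
      have h5 : y ^ 2 * (1 * φ (a 0) ^ 2 - φ (a 5) * φ (a 0) * φ (a 2) + φ (a 3) * φ (a 2) ^ 2) = 0 := by
        linear_combination φ (a 2) ^ 2 * h3 + (φ (a 0) * y - φ (a 2) * w - φ (a 2) * φ (a 5) * y) * h4
      exact (mul_eq_zero.1 h5).resolve_left (pow_ne_zero 2 hy)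
    · subst hw
      have h4 : φ (a 3) * y + φ (a 4) * z = 0 := by
        have : y * (φ (a 3) * y + φ (a 4) * z) = 0 := by linear_combination h3
        exact (mul_eq_zero.1 this).resolve_left hy
      apply hr'
      have h5 : y ^ 2 * (φ (a 0) * φ (a 4) ^ 2 - φ (a 1) * φ (a 4) * φ (a 3) + 1 * φ (a 3) ^ 2) = 0 := by
        linear_combination φ (a 4) ^ 2 * h1 + (φ (a 3) * y - φ (a 4) * z - φ (a 4) * φ (a 1) * y) * h4
      exact (mul_eq_zero.1 h5).resolve_left (pow_ne_zero 2 hy)

theorem p_D6 : P_D6 := by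
  intro p hp
  refine MvPolynomial.funext_set (R := Kb) (s := ![{t | ∃ k : ℕ, t = 2 ^ k}, Set.univ,
    {t | ∃ k : ℤ, t = 2 * k + 1}, {t | ∃ k : ℤ, t = 2 * k + 1}, {t | ∃ k : ℕ, t = 2 ^ k},
      Set.univ]) ?_ ?_
  · intro i
    fin_cases i
    · exact infinite_two_pow
    · exact Set.infinite_univ
    · exact infinite_odd
    · exact infinite_odd
    · exact infinite_two_pow
    · exact Set.infinite_univ
  · intro x hx
    rw [map_zero]
    obtain ⟨k, hk⟩ : ∃ k : ℕ, x 0 = 2 ^ k := hx 0 trivial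
    obtain ⟨m, hm⟩ : ∃ k : ℤ, x 2 = 2 * k + 1 := hx 2 trivial
    obtain ⟨n, hn⟩ : ∃ k : ℤ, x 3 = 2 * k + 1 := hx 3 trivial
    obtain ⟨l, hl⟩ : ∃ k : ℕ, x 4 = 2 ^ k := hx 4 trivial
    have h := line p x 1 ?_ (x 1)
    · rwa [Function.update_eq_self] at h
    · refine (inf_unit (2 ^ k) (2 ^ l) 1 (isUnit_two'.pow k) (isUnit_two'.pow l) (2 * n + 1)
        ⟨n, rfl⟩).mono ?_
      rintro t ⟨b, rfl, hub⟩
      have h := line p (Function.update x 1 (io b)) 5 ?_ (x 5)
      · have e : Function.update (Function.update x 1 (io b)) 5 (x 5) =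
            Function.update x 1 (io b) := by
          rw [Function.update_comm (by decide)]
          rw [Function.update_eq_self]
        rw [e] at h
        exact h
      · refine (inf_unit 1 (2 ^ k) ((2 * n + 1 : ℤ) : Z2) isUnit_one (isUnit_two'.pow k) (2 * m + 1)
          ⟨m, rfl⟩).mono ?_
        rintro u ⟨c, rfl, huc⟩
        have h1 := hp ![2 ^ k, b, ((2 * m + 1 : ℤ) : Z2), ((2 * n + 1 : ℤ) : Z2), 2 ^ l, c]
          (cop9_of (by simpa using huc) (by simpa using hub))
        have e : (fun i => io ((![2 ^ k, b, ((2 * m + 1 : ℤ) : Z2), ((2 * n + 1 : ℤ) : Z2), 2 ^ l, c]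
            : Fin 6 → Z2) i)) = Function.update (Function.update x 1 (io b)) 5 (io c) := by
          funext i
          fin_cases i
          · simp [hk, io_two]
          · simp
          · simp [hm, io_two]
          · simp [hn, io_two]
          · simp [hl, io_two]
          · simp
        rw [e] at h1
        exact h1

end

end Pool.Agent.W4helper65.SD
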